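import Pool.Agent.Helper38.WY.Goals7
import Pool.Agent.Helper19.RP.LEM
import Pool.Agent.Helper9.RS.EIG
import Pool.Agent.Helper96.RP.UPB

/-!
# Project WY, packet O_UPB: the upper bound for the S-units without a condition on the torsion
-/

set_option autoImplicit false

namespace Pool.Agent.Helper49.WY

open NumberField Polynomial Module IsDedekindDomain TensorProduct Pool.Agent.Helper51.SigLeo
open Pool.Agent.Helper51.RP

section tens

variable {A : Type} [AddCommGroup A]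

/-- The torsion subgroup of `A`. -/
abbrev T (A : Type) [AddCommGroup A] : Submodule ℤ A := Submodule.torsion ℤ A

theorem mem_T {x : A} : x ∈ T A ↔ ∃ n : ℤ, n ≠ 0 ∧ n • x = 0 := by
  rw [Submodule.mem_torsion_iff]
  constructor
  · rintro ⟨n, hn⟩
    exact ⟨n, nonZeroDivisors.ne_zero n.2, hn⟩
  · rintro ⟨n, hn, h⟩
    exact ⟨⟨n, mem_nonZeroDivisors_of_ne_zero hn⟩, h⟩

theorem map_T (δ : A →+ A) : T A ≤ (T A).comap δ.toIntLinearMap := by
  intro x hx
  obtain ⟨n, hn, h⟩ := mem_T.1 hx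
  refine mem_T.2 ⟨n, hn, ?_⟩
  change n • δ x = 0
  rw [← map_zsmul, h, map_zero]

/-- The induced endomorphism of `A` modulo torsion. -/
def ind (δ : A →+ A) : (A ⧸ T A) →+ (A ⧸ T A) :=
  ((T A).mapQ (T A) δ.toIntLinearMap (map_T δ)).toAddMonoidHom

theorem ind_mk (δ : A →+ A) (x : A) : ind δ ((T A).mkQ x) = (T A).mkQ (δ x) := rfl

theorem ind_iter (δ : A →+ A) (j : ℕ) (x : A) :
    (ind δ)^[j] ((T A).mkQ x) = (T A).mkQ (δ^[j] x) := by
  induction j with
  | zero => rfl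
  | succ j ih => rw [Function.iterate_succ', Function.comp_apply, ih, ind_mk,
      Function.iterate_succ', Function.comp_apply]

theorem tor_free {x : A ⧸ T A} {n : ℤ} (hn : n ≠ 0) (h : n • x = 0) : x = 0 := by
  obtain ⟨y, rfl⟩ := (T A).mkQ_surjective x
  rw [← map_zsmul] at h
  have h1 : n • y ∈ T A := by
    rw [← Submodule.ker_mkQ (T A)]
    exact h
  obtain ⟨k, hk, h2⟩ := mem_T.1 h1
  rw [Submodule.mkQ_apply, Submodule.Quotient.mk_eq_zero]
  exact mem_T.2 ⟨k * n, mul_ne_zero hk hn, by rw [mul_smul, h2]⟩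

theorem base_inj : Function.Injective ((T A).mkQ.baseChange ℂ) := by
  have h1 : Function.Exact (T A).subtype (T A).mkQ := LinearMap.exact_subtype_mkQ _
  have h2 := lTensor_exact ℂ h1 (T A).mkQ_surjective
  have h3 : ∀ z : ℂ ⊗[ℤ] (T A), (T A).subtype.lTensor ℂ z = 0 := by
    intro z
    induction z using TensorProduct.induction_on with
    | zero => rw [map_zero]
    | add x y hx hy => rw [map_add, hx, hy, add_zero]
    | tmul c t =>
      obtain ⟨n, hn, h⟩ := mem_T.1 t.2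
      rw [LinearMap.lTensor_tmul, Submodule.subtype_apply]
      have h4 : c = n • (c / n) := by
        have : (n : ℂ) ≠ 0 := Int.cast_ne_zero.2 hn
        rw [zsmul_eq_mul, mul_div_cancel₀ _ this]
      rw [h4, TensorProduct.smul_tmul, h, TensorProduct.tmul_zero]
  rw [injective_iff_map_eq_zero]
  intro z hz
  obtain ⟨w, hw⟩ := (h2 z).1 hz
  rw [← hw, h3]

theorem base_surj : Function.Surjective ((T A).mkQ.baseChange ℂ) :=
  LinearMap.lTensor_surjective ℂ (T A).mkQ_surjective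

/-- `ℂ ⊗ A = ℂ ⊗ A/torsion`. -/
noncomputable def eqv (A : Type) [AddCommGroup A] : (ℂ ⊗[ℤ] A) ≃ₗ[ℂ] (ℂ ⊗[ℤ] (A ⧸ T A)) :=
  LinearEquiv.ofBijective ((T A).mkQ.baseChange ℂ) ⟨base_inj, base_surj⟩

theorem eqv_ext (δ : A →+ A) (z : ℂ ⊗[ℤ] A) :
    eqv A ((extEnd δ : (ℂ ⊗[ℤ] A) →ₗ[ℂ] (ℂ ⊗[ℤ] A)) z) =
      (extEnd (ind δ) : (ℂ ⊗[ℤ] (A ⧸ T A)) →ₗ[ℂ] (ℂ ⊗[ℤ] (A ⧸ T A))) (eqv A z) := by
  induction z using TensorProduct.induction_on with
  | zero => simp only [map_zero]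
  | add x y hx hy => simp only [map_add, hx, hy]
  | tmul c t => rfl

theorem finrank_eq (δ : A →+ A) (ζ' : ℂ) :
    finrank ℂ (LinearMap.ker ((extEnd (ind δ) : (ℂ ⊗[ℤ] (A ⧸ T A)) →ₗ[ℂ] (ℂ ⊗[ℤ] (A ⧸ T A))) -
      ζ' • LinearMap.id)) =
    finrank ℂ (LinearMap.ker ((extEnd δ : (ℂ ⊗[ℤ] A) →ₗ[ℂ] (ℂ ⊗[ℤ] A)) - ζ' • LinearMap.id)) := by
  refine (LinearEquiv.finrank_eq (LinearEquiv.ofSubmodules (eqv A) _ _ ?_)).symm
  ext z
  rw [Submodule.mem_map, LinearMap.mem_ker]
  constructor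
  · rintro ⟨y, hy, rfl⟩
    rw [LinearMap.mem_ker, LinearMap.sub_apply, LinearMap.smul_apply, LinearMap.id_apply,
      sub_eq_zero] at hy
    change (extEnd (ind δ)) (eqv A y) - ζ' • (eqv A y) = 0
    rw [← eqv_ext, hy, map_smul, sub_self]
  · intro hz
    obtain ⟨y, rfl⟩ := (eqv A).surjective z
    refine ⟨y, ?_, rfl⟩
    rw [LinearMap.sub_apply, LinearMap.smul_apply, LinearMap.id_apply, sub_eq_zero, ← eqv_ext,
      ← map_smul] at hz
    rw [LinearMap.mem_ker, LinearMap.sub_apply, LinearMap.smul_apply, LinearMap.id_apply,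
      sub_eq_zero]
    exact (eqv A).injective hz

end tens

section count

variable (p : ℕ) [Fact p.Prime] (k : Type) [NormedField k] [NormedAlgebra ℚ_[p] k] (m : ℕ) (ζ : k)
  (Φ : ℤ_[p][X]) (P : (ZMod p)[X])

theorem eval_one (hΦ : PhiData p m ζ Φ P) : P.eval ((1 : ℕ) : ZMod p) ≠ 0 := by
  intro h
  obtain ⟨a, b, hab⟩ := hΦ.cop 1 one_pos hΦ.one_lt (one_dvd m)
  have h1 := congrArg (Polynomial.eval ((1 : ℕ) : ZMod p)) hab
  simp [h] at h1
  simp at h
  simp [h] at h1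

theorem card_le (hL : S_LEM) (hΦ : PhiData p m ζ Φ P)
    (A : Type) [AddCommGroup A] [Module.Finite ℤ A] (δ : A →+ A) (hδ : ∀ x, δ^[m] x = x)
    (ζ' : ℂ) (hζ' : IsPrimitiveRoot ζ' m) (F : Finset A)
    (hF : ∀ x ∈ F, ∃ b, ∑ j ∈ P.support, (P.coeff j).val • δ^[j] x = p • b)
    (hfib : ∀ G ⊆ F, (∀ x ∈ G, ∀ y ∈ G, ∃ b t : A, (∃ n : ℤ, n ≠ 0 ∧ n • t = 0) ∧
      x = y + p • b + t) → G.card ≤ p) :
    F.card ≤ p ^ (P.natDegree *
      finrank ℂ (LinearMap.ker ((extEnd δ : (ℂ ⊗[ℤ] A) →ₗ[ℂ] (ℂ ⊗[ℤ] A)) -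
        ζ' • LinearMap.id)) + 1) := by
  classical
  have hp0 : (p : ℤ) ≠ 0 := by exact_mod_cast (Fact.out : p.Prime).ne_zero
  set R : Submodule ℤ (A ⧸ T A) := LinearMap.range ((p : ℤ) • LinearMap.id) with hR
  have hRmem : ∀ x, x ∈ R ↔ ∃ b, x = p • b := by
    intro x
    rw [hR, LinearMap.mem_range]
    constructor
    · rintro ⟨b, rfl⟩
      exact ⟨b, by simp⟩
    · rintro ⟨b, rfl⟩
      exact ⟨b, by simp⟩
  set q : A → (A ⧸ T A) ⧸ R := fun x => R.mkQ ((T A).mkQ x) with hq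
  have hqeq : ∀ x y, q x = q y ↔ ∃ b, (T A).mkQ x = (T A).mkQ y + p • b := by
    intro x y
    rw [hq]
    change R.mkQ ((T A).mkQ x) = R.mkQ ((T A).mkQ y) ↔ _
    rw [← sub_eq_zero, ← map_sub, ← LinearMap.mem_ker, Submodule.ker_mkQ, hRmem]
    constructor
    · rintro ⟨b, hb⟩
      exact ⟨b, by rw [← hb]; abel⟩
    · rintro ⟨b, hb⟩
      exact ⟨b, by rw [hb]; abel⟩
  obtain ⟨u, huF, hinj, him⟩ := Finset.exists_subset_injOn_image_eq_of_surjOn (f := q) (F : Set A)
    (F.image q) (by intro c hc; simpa using hc)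
  have huF' : u ⊆ F := by exact_mod_cast huF
  have h1 : F.card ≤ p * (F.image q).card := by
    refine Finset.card_le_mul_card_image F p fun c hc => hfib _ (Finset.filter_subset _ _) ?_
    intro x hx y hy
    rw [Finset.mem_filter] at hx hy
    obtain ⟨b, hb⟩ := (hqeq x y).1 (hx.2.trans hy.2.symm)
    obtain ⟨b, rfl⟩ := (T A).mkQ_surjective b
    rw [← map_nsmul, ← map_add, ← sub_eq_zero, ← map_sub] at hb
    have h2 : x - (y + p • b) ∈ T A := by
      rw [← Submodule.ker_mkQ (T A)]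
      exact hb
    exact ⟨b, x - (y + p • b), mem_T.1 h2, by abel⟩
  have hπinj : Set.InjOn (T A).mkQ (u : Set A) := by
    intro x hx y hy hxy
    refine hinj hx hy ?_
    rw [hqeq]
    exact ⟨0, by rw [hxy, smul_zero, add_zero]⟩
  have h2 : (F.image q).card = (u.image (T A).mkQ).card := by
    rw [← him, Finset.card_image_of_injOn hinj, Finset.card_image_of_injOn hπinj]
  have h3 := hL p k m ζ Φ P hΦ (A ⧸ T A) (ind δ) 1 ?_ ?_ (eval_one p k m ζ Φ P hΦ) ζ' hζ'
    (u.image (T A).mkQ) ?_ ?_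
  · rw [finrank_eq] at h3
    rw [pow_succ, mul_comm]
    refine h1.trans (Nat.mul_le_mul_left _ ?_)
    rw [h2]
    exact h3
  · intro x
    obtain ⟨y, rfl⟩ := (T A).mkQ_surjective x
    rw [ind_iter, hδ]
  · intro x n hx
    have h4 : x = 0 := by
      refine tor_free (n := (p : ℤ) ^ n) (pow_ne_zero _ hp0) ?_
      rw [← hx, ← natCast_zsmul, Nat.cast_pow]
    rw [h4, map_zero, smul_zero]
  · intro x hx
    obtain ⟨y, hy, rfl⟩ := Finset.mem_image.1 hx
    obtain ⟨b, hb⟩ := hF y (huF' hy)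
    refine ⟨(T A).mkQ b, ?_⟩
    rw [← map_nsmul, ← hb, map_sum]
    exact Finset.sum_congr rfl fun j _ => by rw [ind_iter, map_nsmul]
  · intro x hx y hy hxy hb
    obtain ⟨x', hx', rfl⟩ := Finset.mem_image.1 hx
    obtain ⟨y', hy', rfl⟩ := Finset.mem_image.1 hy
    refine hxy ?_
    rw [hinj (by exact_mod_cast hx') (by exact_mod_cast hy') ((hqeq x' y').2 hb)]

end count

/-- A finite set of units of a field which differ from each other by `p`-th powers and roots of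
unity but not by `p`-th powers has at most `p` elements. -/
theorem card_tor {M : Type} [Field M] {p : ℕ} (hp : p.Prime) (G : Finset Mˣ)
    (h1 : ∀ x ∈ G, ∀ y ∈ G, ∃ b t : Mˣ, (∃ n : ℕ, n ≠ 0 ∧ t ^ n = 1) ∧ x = y * b ^ p * t)
    (h2 : ∀ x ∈ G, ∀ y ∈ G, x ≠ y → ¬ Pw p (x / y)) : G.card ≤ p := by
  classical
  rcases G.eq_empty_or_nonempty with rfl | ⟨y₀, hy₀⟩
  · simp
  choose! b t hn hx using fun x (hx : x ∈ G) => h1 x hx y₀ hy₀
  choose! n hn0 hn1 using hn
  obtain ⟨N, hN⟩ : ∃ N, N = ∏ x ∈ G, n x := ⟨_, rfl⟩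
  have hN0 : N ≠ 0 := by
    rw [hN]
    exact Finset.prod_ne_zero_iff.2 hn0
  have : NeZero N := ⟨hN0⟩
  have htN : ∀ x ∈ G, t x ∈ rootsOfUnity N M := by
    intro x hxG
    rw [mem_rootsOfUnity]
    obtain ⟨c, hc⟩ : n x ∣ N := by
      rw [hN]
      exact Finset.dvd_prod_of_mem n hxG
    rw [hc, pow_mul, hn1 x hxG, one_pow]
  obtain ⟨g, hg⟩ := IsCyclic.exists_generator (α := rootsOfUnity N M)
  have hz : ∀ x ∈ G, ∃ e : ℤ, (g : Mˣ) ^ e = t x := by
    intro x hxG
    obtain ⟨e, he⟩ := Subgroup.mem_zpowers_iff.1 (hg ⟨t x, htN x hxG⟩)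
    exact ⟨e, by rw [← Subgroup.coe_zpow, he]⟩
  choose! e he using hz
  have hinj : Set.InjOn (fun x => ((e x : ℤ) : ZMod p)) (G : Set Mˣ) := by
    intro x hxG y hyG hxy
    by_contra hne
    obtain ⟨c, hc⟩ := (ZMod.intCast_eq_intCast_iff_dvd_sub _ _ _).1 hxy.symm
    refine h2 x hxG y hyG hne ⟨b x / b y * (g : Mˣ) ^ c, ?_⟩
    have h3 : t x / t y = ((g : Mˣ) ^ c) ^ p := by
      rw [← he x hxG, ← he y hyG, div_eq_mul_inv, ← zpow_sub, hc, mul_comm, zpow_mul, zpow_natCast]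
    have h4 : x / y = b x ^ p / b y ^ p * (t x / t y) := by
      conv_lhs => rw [hx x hxG, hx y hyG]
      rw [mul_assoc, mul_assoc, mul_div_mul_left_eq_div, mul_div_mul_comm]
    rw [mul_pow, ← h3, div_pow, h4]
  have : NeZero p := ⟨hp.ne_zero⟩
  calc G.card ≤ (Finset.univ : Finset (ZMod p)).card :=
        Finset.card_le_card_of_injOn _ (fun _ _ => Finset.mem_univ _) hinj
    _ = p := by rw [Finset.card_univ, ZMod.card]

theorem o_upb' (h1 : S_LEM) (h2 : S_EIG) : Pool.Agent.Helper38.WY.O_UPB := by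
  intro p hpf k _ _ K M _ _ _ _ _ _ _ m d s₀ δ ζ Φ P hΦ hord hfin hdeg S hSfin hSst hSfree
    F hF hne
  classical
  have hp0 : p ≠ 0 := hpf.out.ne_zero
  have hm1 : 0 < m := lt_trans zero_lt_one hΦ.one_lt
  have : NeZero m := ⟨hm1.ne'⟩
  have hζ' : IsPrimitiveRoot (Complex.exp (2 * Real.pi * Complex.I / m)) m :=
    Complex.isPrimitiveRoot_exp m hm1.ne'
  obtain ⟨D, hD, hfinA, hrank⟩ := h2 K M m d s₀ δ hord hfin hdeg hm1 S hSfin hSst hSfree _ hζ'
  have := hfinA
  set φ : Mˣ →* Mˣ := Units.map ((δ : M →+* M) : M →* M) with hφ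
  have hδm : δ ^ m = 1 := by rw [← hord]; exact pow_orderOf_eq_one δ
  -- the iterates
  have hiter : ∀ (j : ℕ) (x : Additive (S.unit M)),
      (((D^[j] x).toMul : S.unit M) : Mˣ) =
        Units.map (((δ ^ j : M ≃ₐ[K] M) : M →+* M) : M →* M) ((x.toMul : S.unit M) : Mˣ) := by
    intro j
    induction j with
    | zero => intro x; ext; simp
    | succ j ih =>
      intro x
      rw [Function.iterate_succ', Function.comp_apply]
      have h3 := hD (D^[j] x).toMul
      rw [ofMul_toMul, ih x] at h3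
      rw [h3]
      ext
      rw [hφ, pow_succ']
      simp only [Units.coe_map, MonoidHom.coe_coe, RingHom.coe_coe]
      rfl
  have hDm : ∀ x : Additive (S.unit M), D^[m] x = x := by
    intro x
    apply Additive.toMul.injective
    apply Subtype.ext
    rw [hiter m x, hδm]
    ext
    simp
  -- the finset
  set f : {x // x ∈ F} → Additive (S.unit M) :=
    fun x => Additive.ofMul (⟨x.1, (hF x.1 x.2).1⟩ : S.unit M) with hf
  have hfinj : Function.Injective f := by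
    intro x y hxy
    apply Subtype.ext
    have := congrArg (fun z : Additive (S.unit M) => ((z.toMul : S.unit M) : Mˣ)) hxy
    simpa [hf] using this
  set F' : Finset (Additive (S.unit M)) := F.attach.map ⟨f, hfinj⟩ with hF'
  have hcard : F'.card = F.card := by simp [hF']
  have key := card_le p k m ζ Φ P h1 hΦ (Additive (S.unit M)) D hDm _ hζ' F' ?_ ?_
  · rw [hcard] at key
    exact key.trans (Nat.pow_le_pow_right (Nat.pos_of_ne_zero hp0)
      (Nat.add_le_add_right (Nat.mul_le_mul_left _ hrank) 1))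
  · intro x hx
    obtain ⟨z, -, rfl⟩ := Finset.mem_map.1 hx
    obtain ⟨hz1, y, hy⟩ := hF z.1 z.2
    have hcoe : ∀ (s : Finset ℕ),
        (((∑ j ∈ s, (P.coeff j).val • D^[j] (f z)).toMul : S.unit M) : Mˣ) =
        ∏ j ∈ s, (Units.map (((δ ^ j : M ≃ₐ[K] M) : M →+* M) : M →* M) z.1) ^ (P.coeff j).val := by
      intro s
      induction s using Finset.induction_on with
      | empty => simp
      | insert a s ha ih =>
        rw [Finset.sum_insert ha, Finset.prod_insert ha, ← ih, toMul_add, Subgroup.coe_mul,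
          toMul_nsmul, Subgroup.coe_pow, hiter]
        simp [hf]
    have hpol : (((∑ j ∈ P.support, (P.coeff j).val • D^[j] (f z)).toMul : S.unit M) : Mˣ)
        = y ^ p := by
      rw [hcoe, ← hy, pol, MonoidHom.finsetProd_apply]
      rfl
    have hyS : y ∈ S.unit M := by
      refine Pool.Agent.Helper96.RP.mem_unit_of_pow (x := y ^ p) hp0 rfl ?_
      rw [← hpol]
      exact Subtype.property _
    refine ⟨Additive.ofMul (⟨y, hyS⟩ : S.unit M), ?_⟩
    apply Additive.toMul.injective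
    apply Subtype.ext
    show (((∑ j ∈ P.support, (P.coeff j).val • D^[j] (f z)).toMul : S.unit M) : Mˣ) = _
    rw [hpol]
    simp
  · intro G hG hcon
    set c : Additive (S.unit M) → Mˣ := fun x => ((x.toMul : S.unit M) : Mˣ) with hc
    have hcinj : Function.Injective c := fun x y hxy =>
      Additive.toMul.injective (Subtype.ext hxy)
    rw [← Finset.card_image_of_injective G hcinj]
    have hGF : ∀ x ∈ G, c x ∈ F := by
      intro x hx
      obtain ⟨z, -, hz⟩ := Finset.mem_map.1 (hG hx)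
      rw [← hz]
      exact z.2
    refine card_tor hpf.out _ ?_ ?_
    · intro x hx y hy
      obtain ⟨x', hx', rfl⟩ := Finset.mem_image.1 hx
      obtain ⟨y', hy', rfl⟩ := Finset.mem_image.1 hy
      obtain ⟨b, t, ⟨n, hn, hnt⟩, hxy⟩ := hcon x' hx' y' hy'
      refine ⟨c b, c t, ⟨n.natAbs, Int.natAbs_ne_zero.2 hn, ?_⟩, ?_⟩
      · have h3 : n.natAbs • t = 0 := by
          rw [← natCast_zsmul, Int.natCast_natAbs]
          rcases abs_choice n with h | h
          · rw [h, hnt]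
          · rw [h, neg_smul, hnt, neg_zero]
        have h4 := congrArg c h3
        simpa [hc] using h4
      · rw [hxy]
        simp [hc]
    · intro x hx y hy hxy
      obtain ⟨x', hx', rfl⟩ := Finset.mem_image.1 hx
      obtain ⟨y', hy', rfl⟩ := Finset.mem_image.1 hy
      exact hne _ (hGF x' hx') _ (hGF y' hy') hxy

/-- **O_UPB**. -/
theorem o_upb : Pool.Agent.Helper38.WY.O_UPB :=
  o_upb' Pool.Agent.Helper19.RP.s_lem Pool.Agent.Helper9.RS.s_eig

end Pool.Agent.Helper49.WY
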